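import Mathlib

/-! # Project PL (MP_6d3f27_nt): definitions -/

namespace PL

/-- the `(a, b)`-Fibonacci sequence -/
def F (a b : ℤ) : ℕ → ℤ
  | 0 => a
  | 1 => b
  | n + 2 => F a b (n + 1) + F a b n

/-- the `(a, b)`-Pisano period modulo `p`: the smallest `m ≥ 1` with `F (n + m) ≡ F n` for all `n` -/
noncomputable def per (p : ℕ) (a b : ℤ) : ℕ :=
  sInf {m : ℕ | 1 ≤ m ∧ ∀ n, (p : ℤ) ∣ F a b (n + m) - F a b n}

/-- `λ_e`: the number of `i < π_p(a,b)` with Legendre symbol `(F_i / p) = e` -/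
noncomputable def lam (p : ℕ) [Fact p.Prime] (e : ℤ) (a b : ℤ) : ℕ :=
  Nat.card {i : ℕ // i < per p a b ∧ legendreSym p (F a b i) = e}

/-- the integer `k` for which `p` is a `k`-Pisano-Legendre prime for `(a, b)` -/
noncomputable def kval (p : ℕ) [Fact p.Prime] (a b : ℤ) : ℤ :=
  (lam p 1 a b : ℤ) - lam p (-1) a b - lam p 0 a b

/-- the set `χ(a, b)` -/
def chi (a b : ℤ) : Set ℤ :=
  {k | ∃ (p : ℕ) (_ : Fact p.Prime), p ≠ 2 ∧ kval p a b = k}

/-- the shift on pairs modulo `p` -/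
def sh {p : ℕ} (v : ZMod p × ZMod p) : ZMod p × ZMod p := (v.2, v.1 + v.2)

/-- `S(v) = ∑ χ(first coordinate of the shifts of v)`, the sum over `m` terms -/
def SS (p : ℕ) [Fact p.Prime] (m : ℕ) (v : ZMod p × ZMod p) : ℤ :=
  ∑ i ∈ Finset.range m, quadraticChar (ZMod p) ((sh^[i] v).1)

end PL
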