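import Mathlib

/-! # PL-Dens: densities and residues modulo many primes -/

namespace PL

/-- The sum of `1/√p` over the primes `p ≡ 17 mod 40`, `p ≥ P0`, diverges.
PROOF. Otherwise `∑ log p / p` over these primes converges, as `log p ≤ 2 √p`; this contradicts
`ArithmeticFunction.vonMangoldt.not_summable_residueClass_prime_div` (`q = 40`, `a = 17`). -/
theorem not_summable (P0 : ℕ) :
    ¬ Summable fun n : ℕ => if n.Prime ∧ n % 40 = 17 ∧ P0 ≤ n then (1 : ℝ) / Real.sqrt n else 0 := by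
  intro h
  have ha : IsUnit (17 : ZMod 40) := by decide
  refine ArithmeticFunction.vonMangoldt.not_summable_residueClass_prime_div ha ?_
  refine Summable.of_norm_bounded_eventually_nat (h.mul_left 2) ?_
  filter_upwards [Filter.eventually_ge_atTop P0] with n hn
  by_cases hp : n.Prime
  · rw [if_pos hp]
    by_cases hm : n % 40 = 17
    · have h1 : (n : ZMod 40) = 17 := by
        have := (ZMod.natCast_eq_natCast_iff' n 17 40).2 (by omega)
        simpa using this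
      have h2 : ArithmeticFunction.vonMangoldt.residueClass (17 : ZMod 40) n = Real.log n := by
        rw [ArithmeticFunction.vonMangoldt.residueClass, Set.indicator_of_mem (by exact h1)]
        exact ArithmeticFunction.vonMangoldt_apply_prime hp
      rw [h2, if_pos ⟨hp, hm, hn⟩]
      have n0 : (0 : ℝ) < n := by exact_mod_cast hp.pos
      have s0 : 0 < Real.sqrt n := Real.sqrt_pos.2 n0
      have h3 : Real.log n ≤ 2 * Real.sqrt n := by
        have h4 : Real.log n = 2 * Real.log (Real.sqrt n) := by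
          rw [Real.log_sqrt n0.le]
          ring
        have h5 := Real.log_le_sub_one_of_pos s0
        rw [h4]
        linarith
      have h6 : 0 ≤ Real.log n := Real.log_nonneg (by exact_mod_cast hp.one_le)
      rw [Real.norm_of_nonneg (by positivity), div_le_iff₀ n0]
      have h7 : (n : ℝ) = Real.sqrt n * Real.sqrt n := (Real.mul_self_sqrt n0.le).symm
      calc Real.log n ≤ 2 * Real.sqrt n := h3
        _ = 2 * (1 / Real.sqrt n) * (Real.sqrt n * Real.sqrt n) := by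
          field_simp
        _ = _ := by rw [← h7]
    · have h1 : ¬ ((n : ZMod 40) = 17) := by
        intro h2
        apply hm
        have h3 : (n : ZMod 40) = ((17 : ℕ) : ZMod 40) := by simpa using h2
        have := (ZMod.natCast_eq_natCast_iff' n 17 40).1 h3
        omega
      have h2 : ArithmeticFunction.vonMangoldt.residueClass (17 : ZMod 40) n = 0 := by
        show Set.indicator {n : ℕ | (n : ZMod 40) = 17}
          (fun n => ArithmeticFunction.vonMangoldt n) n = 0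
        rw [Set.indicator_of_notMem (by exact h1)]
      rw [h2, zero_div, norm_zero]
      split_ifs <;> positivity
  · rw [if_neg hp, zero_div, norm_zero]
    split_ifs <;> positivity

/-- PROOF. `∏ (1 - x_p) ≤ exp(-∑ x_p)` with `x_p = 1 / (8 √p) `, and the partial sums of `∑ x_p` are
unbounded by `not_summable` (`not_summable_iff_tendsto_nat_atTop_of_nonneg`). -/
theorem exists_block (P0 : ℕ) (δ : ℝ) (hδ : 0 < δ) :
    ∃ B : Finset ℕ, (∀ p ∈ B, p.Prime ∧ p % 40 = 17 ∧ P0 ≤ p) ∧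
      ∏ p ∈ B, (1 - 1 / (8 * Real.sqrt p)) ≤ δ := by
  have h1 := (not_summable_iff_tendsto_nat_atTop_of_nonneg (f := fun n : ℕ =>
    if n.Prime ∧ n % 40 = 17 ∧ P0 ≤ n then (1 : ℝ) / Real.sqrt n else 0) (fun n => by
      show (0 : ℝ) ≤ if n.Prime ∧ n % 40 = 17 ∧ P0 ≤ n then (1 : ℝ) / Real.sqrt n else 0
      split_ifs <;> positivity)).1 (not_summable P0)
  obtain ⟨N, hN⟩ := (h1.eventually_ge_atTop (-8 * Real.log δ)).exists
  refine ⟨(Finset.range N).filter (fun n => n.Prime ∧ n % 40 = 17 ∧ P0 ≤ n), fun p hp =>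
    (Finset.mem_filter.1 hp).2, ?_⟩
  rw [← Finset.sum_filter] at hN
  have h2 : ∏ p ∈ (Finset.range N).filter (fun n => n.Prime ∧ n % 40 = 17 ∧ P0 ≤ n),
      (1 - 1 / (8 * Real.sqrt p)) ≤
      ∏ p ∈ (Finset.range N).filter (fun n => n.Prime ∧ n % 40 = 17 ∧ P0 ≤ n),
        Real.exp (-(1 / (8 * Real.sqrt p))) := by
    refine Finset.prod_le_prod (fun p hp => ?_) (fun p _ => ?_)
    · have hp1 : (1 : ℝ) ≤ p := by exact_mod_cast (Finset.mem_filter.1 hp).2.1.one_le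
      have hs : 1 ≤ Real.sqrt p := Real.one_le_sqrt.2 hp1
      rw [sub_nonneg, div_le_one (by positivity)]
      linarith
    · have := Real.add_one_le_exp (-(1 / (8 * Real.sqrt p)))
      linarith
  refine h2.trans ?_
  rw [← Real.exp_sum]
  have h3 : ∑ p ∈ (Finset.range N).filter (fun n => n.Prime ∧ n % 40 = 17 ∧ P0 ≤ n),
      (-(1 / (8 * Real.sqrt p))) = -(1 / 8) *
      ∑ p ∈ (Finset.range N).filter (fun n => n.Prime ∧ n % 40 = 17 ∧ P0 ≤ n),
        1 / Real.sqrt p := by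
    rw [Finset.mul_sum]
    refine Finset.sum_congr rfl fun p _ => ?_
    rw [one_div, mul_inv]
    ring
  rw [h3]
  calc Real.exp _ ≤ Real.exp (Real.log δ) := by
        apply Real.exp_le_exp.2
        linarith
    _ = δ := Real.exp_log hδ

/-- The number of residues modulo `∏ p` avoiding given sets `E p` modulo `p`.
PROOF. Induction on `B` with the Chinese remainder theorem (`ZMod.chineseRemainder`), or
`ZMod.prodEquivPi`. -/
theorem card_avoid (B : Finset ℕ) (hB : ∀ p ∈ B, p.Prime) (E : ∀ p : ℕ, Set (ZMod p)) :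
    (Nat.card {x : ZMod (∏ p ∈ B, p) // ∀ p ∈ B, (x.cast : ZMod p) ∉ E p} : ℝ) ≤
      ∏ p ∈ B, ((p : ℝ) - Nat.card (E p)) := by
  classical
  have hne : ∀ p : B, NeZero (p : ℕ) := fun p => ⟨(hB p p.2).ne_zero⟩
  have hQ : (∏ p ∈ B, p) ≠ 0 := Finset.prod_ne_zero_iff.2 fun p hp => (hB p hp).ne_zero
  have : NeZero (∏ p ∈ B, p) := ⟨hQ⟩
  let f : {x : ZMod (∏ p ∈ B, p) // ∀ p ∈ B, (x.cast : ZMod p) ∉ E p} →
      (∀ p : B, {y : ZMod (p : ℕ) // y ∉ E p}) := fun x p => ⟨x.1.cast, x.2 p p.2⟩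
  have hf : Function.Injective f := by
    intro x y hxy
    apply Subtype.ext
    have h1 : ∀ p ∈ B, p ∣ (x.1 - y.1).val := by
      intro p hp
      have : NeZero p := ⟨(hB p hp).ne_zero⟩
      have h2 : ((x.1.cast : ZMod p)) = y.1.cast := congrArg Subtype.val (congrFun hxy ⟨p, hp⟩)
      have hd : p ∣ ∏ p ∈ B, p := Finset.dvd_prod_of_mem (fun p => p) hp
      have h3 : ((x.1 - y.1).cast : ZMod p) = 0 := by
        rw [ZMod.cast_sub hd, h2, sub_self]
      rw [← ZMod.natCast_val] at h3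
      exact (ZMod.natCast_eq_zero_iff _ _).1 h3
    have h4 : ∏ p ∈ B, p ∣ (x.1 - y.1).val :=
      Finset.prod_primes_dvd _ (fun p hp => (hB p hp).prime) h1
    have h5 : (x.1 - y.1).val = 0 := Nat.eq_zero_of_dvd_of_lt h4 (ZMod.val_lt _)
    exact sub_eq_zero.1 ((ZMod.val_eq_zero _).1 h5)
  have hfin : ∀ p : B, Finite {y : ZMod (p : ℕ) // y ∉ E p} := fun p => by
    have := hne p
    infer_instance
  have h6 := Nat.card_le_card_of_injective f hf
  rw [Nat.card_pi] at h6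
  have h7 : ((∏ p : B, Nat.card {y : ZMod (p : ℕ) // y ∉ E p} : ℕ) : ℝ) =
      ∏ p ∈ B, ((p : ℝ) - Nat.card (E p)) := by
    rw [Nat.cast_prod, ← Finset.prod_coe_sort B (fun p => ((p : ℝ) - Nat.card (E p)))]
    refine Finset.prod_congr rfl fun p _ => ?_
    have := hne p
    have h8 := Set.ncard_add_ncard_compl (E p)
    rw [Nat.card_zmod] at h8
    have h9 : Nat.card {y : ZMod (p : ℕ) // y ∉ E p} = (E p)ᶜ.ncard := rfl
    have h10 : Nat.card (E p) = (E p).ncard := rfl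
    rw [h9, h10]
    have h11 : ((E (p : ℕ)).ncard : ℝ) + ((E (p : ℕ))ᶜ.ncard : ℝ) = ((p : ℕ) : ℝ) := by exact_mod_cast h8
    linarith
  rw [← h7]
  exact_mod_cast h6

/-- The number of integers `t`, `|t| ≤ N`, with `t mod Q` in a set `A`.
PROOF. Each class modulo `Q` contains at most `(2 N + 1) / Q + 1` of them. -/
theorem card_box (Q : ℕ) (hQ : 0 < Q) (A : Set (ZMod Q)) (N : ℕ) :
    (Nat.card {t : ℤ // |t| ≤ N ∧ (t : ZMod Q) ∈ A} : ℝ) ≤
      Nat.card A * ((2 * N + 1) / Q + 1) := by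
  have : NeZero Q := ⟨hQ.ne'⟩
  have hQz : (0 : ℤ) < Q := by exact_mod_cast hQ
  have hb : ∀ t : ℤ, |t| ≤ N → 0 ≤ (t + N) / Q ∧ (t + N) / Q ≤ ((2 * N / Q : ℕ) : ℤ) := by
    intro t ht
    obtain ⟨h1, h2⟩ := abs_le.1 ht
    refine ⟨Int.ediv_nonneg (by linarith) hQz.le, ?_⟩
    push_cast
    exact Int.ediv_le_ediv hQz (by linarith)
  let f : {t : ℤ // |t| ≤ N ∧ (t : ZMod Q) ∈ A} → A × Fin (2 * N / Q + 1) := fun t =>
    (⟨(t.1 : ZMod Q), t.2.2⟩, ⟨((t.1 + N) / Q).toNat, by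
      obtain ⟨h1, h2⟩ := hb t.1 t.2.1
      omega⟩)
  have hf : Function.Injective f := by
    intro t s hts
    apply Subtype.ext
    have h1 : ((t.1 : ℤ) : ZMod Q) = (s.1 : ℤ) := congrArg (fun z => (z.1 : ZMod Q)) hts
    have h2 : ((t.1 + N) / Q).toNat = ((s.1 + N) / Q).toNat := congrArg (fun z => (z.2 : ℕ)) hts
    obtain ⟨a1, -⟩ := hb t.1 t.2.1
    obtain ⟨b1, -⟩ := hb s.1 s.2.1
    have h3 : (t.1 + N) / Q = (s.1 + N) / Q := by
      have := congrArg (fun n : ℕ => (n : ℤ)) h2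
      simpa [Int.toNat_of_nonneg a1, Int.toNat_of_nonneg b1] using this
    have h4 : t.1 ≡ s.1 [ZMOD Q] := (ZMod.intCast_eq_intCast_iff _ _ _).1 h1
    have h5 : (t.1 + N) % Q = (s.1 + N) % Q := h4.add_right _
    have h6 := Int.emod_add_mul_ediv (t.1 + N) Q
    have h7 := Int.emod_add_mul_ediv (s.1 + N) Q
    rw [h3, h5] at h6
    linarith
  have h8 := Nat.card_le_card_of_injective f hf
  rw [Nat.card_prod, Nat.card_fin] at h8
  have h9 : ((2 * N / Q : ℕ) : ℝ) ≤ (2 * N + 1) / Q := by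
    refine (Nat.cast_div_le).trans ?_
    push_cast
    gcongr
    linarith
  calc (Nat.card {t : ℤ // |t| ≤ N ∧ (t : ZMod Q) ∈ A} : ℝ) ≤
      ((Nat.card A * (2 * N / Q + 1) : ℕ) : ℝ) := by exact_mod_cast h8
    _ = Nat.card A * (((2 * N / Q : ℕ) : ℝ) + 1) := by push_cast; ring
    _ ≤ _ := by gcongr

/-- THE SIEVE. For every prime `p ≡ 17 mod 40`, `p ≥ P0`, let `E p` be a set of at least `√p / 8` residues
modulo `p`. Then for `δ > 0` there are a finite set `B` of such primes and `N0` such that for `N ≥ N0` all but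
at most `δ (2 N + 1)` integers `|t| ≤ N` are in `E p` modulo some `p ∈ B`.
PROOF. `exists_block` for `δ / 2`, `card_avoid`, `card_box` with `Q = ∏ p`: the number is at most
`(δ / 2) Q ((2 N + 1) / Q + 1) ≤ δ (2 N + 1)` if `2 N + 1 ≥ Q`. -/
theorem sieve (P0 : ℕ) (E : ∀ p : ℕ, Set (ZMod p))
    (hE : ∀ p : ℕ, p.Prime → p % 40 = 17 → P0 ≤ p → Real.sqrt p / 8 ≤ Nat.card (E p))
    (δ : ℝ) (hδ : 0 < δ) :
    ∃ (B : Finset ℕ) (N0 : ℕ), (∀ p ∈ B, p.Prime ∧ p % 40 = 17 ∧ P0 ≤ p) ∧ ∀ N ≥ N0,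
      (Nat.card {t : ℤ // |t| ≤ N ∧ ∀ p ∈ B, (t : ZMod p) ∉ E p} : ℝ) ≤ δ * (2 * N + 1) := by
  obtain ⟨B, hB, hprod⟩ := exists_block P0 (δ / 2) (half_pos hδ)
  refine ⟨B, ∏ p ∈ B, p, hB, fun N hN => ?_⟩
  have hpr : ∀ p ∈ B, p.Prime := fun p hp => (hB p hp).1
  have hQ : 0 < ∏ p ∈ B, p := Finset.prod_pos fun p hp => (hpr p hp).pos
  obtain ⟨Q, hQd⟩ : ∃ Q, Q = ∏ p ∈ B, p := ⟨_, rfl⟩
  have h1 := card_avoid B hpr E
  have h2 := card_box (∏ p ∈ B, p) hQ {x | ∀ p ∈ B, (x.cast : ZMod p) ∉ E p} N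
  have h3 : Nat.card {t : ℤ // |t| ≤ N ∧ ∀ p ∈ B, (t : ZMod p) ∉ E p} =
      Nat.card {t : ℤ // |t| ≤ N ∧ (t : ZMod (∏ p ∈ B, p)) ∈
        {x : ZMod (∏ p ∈ B, p) | ∀ p ∈ B, (x.cast : ZMod p) ∉ E p}} := by
    refine Nat.card_congr (Equiv.subtypeEquivRight fun t => ?_)
    refine and_congr_right fun _ => ?_
    show (∀ p ∈ B, (t : ZMod p) ∉ E p) ↔ ∀ p ∈ B, ((t : ZMod (∏ p ∈ B, p)).cast : ZMod p) ∉ E p
    refine forall₂_congr fun p hp => ?_
    rw [ZMod.cast_intCast (Finset.dvd_prod_of_mem (fun p => p) hp)]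
  have h4 : (Nat.card {x : ZMod (∏ p ∈ B, p) | ∀ p ∈ B, (x.cast : ZMod p) ∉ E p} : ℝ) ≤
      (∏ p ∈ B, (p : ℝ)) * (δ / 2) := by
    refine le_trans h1 ?_
    have h5 : ∏ p ∈ B, ((p : ℝ) - Nat.card (E p)) ≤
        ∏ p ∈ B, ((p : ℝ) * (1 - 1 / (8 * Real.sqrt p))) := by
      refine Finset.prod_le_prod (fun p hp => ?_) (fun p hp => ?_)
      · have : NeZero p := ⟨(hpr p hp).ne_zero⟩
        have h8 := Set.ncard_add_ncard_compl (E p)
        rw [Nat.card_zmod] at h8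
        have h10 : Nat.card (E p) = (E p).ncard := rfl
        rw [h10]
        have h11 : ((E (p : ℕ)).ncard : ℝ) + ((E (p : ℕ))ᶜ.ncard : ℝ) = ((p : ℕ) : ℝ) := by
          exact_mod_cast h8
        have h12 : (0 : ℝ) ≤ ((E (p : ℕ))ᶜ.ncard : ℝ) := Nat.cast_nonneg _
        linarith
      · obtain ⟨a, b, c⟩ := hB p hp
        have h6 := hE p a b c
        have p0 : (0 : ℝ) < p := by exact_mod_cast a.pos
        have s0 : 0 < Real.sqrt p := Real.sqrt_pos.2 p0
        have h7 : (p : ℝ) * (1 - 1 / (8 * Real.sqrt p)) = p - Real.sqrt p / 8 := by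
          have h8 : (p : ℝ) = Real.sqrt p * Real.sqrt p := (Real.mul_self_sqrt p0.le).symm
          have h9 : (p : ℝ) * (1 / (8 * Real.sqrt p)) = Real.sqrt p / 8 := by
            conv_lhs => rw [h8]
            rw [Real.sqrt_mul_self s0.le]
            field_simp
          rw [mul_sub, mul_one, h9]
        rw [h7]
        linarith
    refine h5.trans ?_
    rw [Finset.prod_mul_distrib]
    exact mul_le_mul_of_nonneg_left hprod (Finset.prod_nonneg fun p _ => Nat.cast_nonneg p)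
  have hQr : (0 : ℝ) < ((∏ p ∈ B, p : ℕ) : ℝ) := by exact_mod_cast hQ
  have hcast : (∏ p ∈ B, (p : ℝ)) = ((∏ p ∈ B, p : ℕ) : ℝ) := by push_cast; rfl
  rw [hcast] at h4
  have hNQ : ((∏ p ∈ B, p : ℕ) : ℝ) ≤ N := by exact_mod_cast hN
  rw [h3]
  refine h2.trans ?_
  obtain ⟨q, hq⟩ : ∃ q : ℝ, q = ((∏ p ∈ B, p : ℕ) : ℝ) := ⟨_, rfl⟩
  rw [← hq] at h4 hQr hNQ ⊢
  have hpos : 0 ≤ (2 * (N : ℝ) + 1) / q + 1 := by positivity
  calc _ ≤ (q * (δ / 2)) * ((2 * (N : ℝ) + 1) / q + 1) := mul_le_mul_of_nonneg_right h4 hpos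
    _ = (δ / 2) * (2 * N + 1) + (δ / 2) * q := by
      field_simp
    _ ≤ δ * (2 * N + 1) := by
      have : (δ / 2) * q ≤ (δ / 2) * (2 * N + 1) := by
        apply mul_le_mul_of_nonneg_left _ (half_pos hδ).le
        have : (0 : ℝ) ≤ N := Nat.cast_nonneg N
        linarith
      linarith

end PL
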