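import Mathlib
import Pool.Agent.helper11.PL.Defs

/-! # PL-Lin: the shift modulo a prime `p ≡ 17 mod 40` -/

namespace PL

section

variable {p : ℕ} [Fact p.Prime]

/-- `sh^[n] v = (f_{n-1} x + f_n y, f_n x + f_{n+1} y)` with the Fibonacci numbers `f`; here written
for `n + 1`. PROOF. Induction on `n`. -/
theorem sh_iter (n : ℕ) (v : ZMod p × ZMod p) :
    sh^[n + 1] v = (Nat.fib n * v.1 + Nat.fib (n + 1) * v.2,
      Nat.fib (n + 1) * v.1 + Nat.fib (n + 2) * v.2) := by
  induction n with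
  | zero =>
    simp [sh]
  | succ n ih =>
    rw [Function.iterate_succ_apply', ih]
    have h1 : ((Nat.fib (n + 3) : ℕ) : ZMod p) = Nat.fib (n + 1) + Nat.fib (n + 2) := by
      rw [Nat.fib_add_two (n := n + 1)]
      push_cast
      ring
    have h2 : ((Nat.fib (n + 2) : ℕ) : ZMod p) = Nat.fib n + Nat.fib (n + 1) := by
      rw [Nat.fib_add_two (n := n)]
      push_cast
      ring
    have e1 : n + 1 + 1 = n + 2 := rfl
    have e2 : n + 1 + 2 = n + 3 := rfl
    rw [e1, e2, h1]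
    simp only [sh]
    ext
    · rfl
    · show ((Nat.fib n : ZMod p) * v.1 + Nat.fib (n + 1) * v.2) +
        (Nat.fib (n + 1) * v.1 + Nat.fib (n + 2) * v.2) = _
      rw [h2]
      ring

/-- the pairs `(F n, F (n+1))` modulo `p` are the shifts of `(a, b)`. PROOF. Induction. -/
theorem sh_F (a b : ℤ) (n : ℕ) :
    sh^[n] ((a : ZMod p), (b : ZMod p)) = ((F a b n : ZMod p), (F a b (n + 1) : ZMod p)) := by
  induction n with
  | zero => simp [F]
  | succ n ih =>
    rw [Function.iterate_succ_apply', ih]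
    have h1 : F a b (n + 1 + 1) = F a b (n + 1) + F a b n := rfl
    rw [h1]
    simp only [sh]
    push_cast
    ext
    · rfl
    · show ((F a b n : ℤ) : ZMod p) + ((F a b (n + 1) : ℤ) : ZMod p) = _
      ring

private lemma not_sq : ¬ IsSquare (2 : ZMod 5) := by decide

/-- `x ^ 2 = x + 1` has no solution modulo `p ≡ 17 mod 40`. PROOF. `(2 x - 1) ^ 2 = 5`; `5` is not a square
modulo `p` by `ZMod.exists_sq_eq_prime_iff_of_mod_four_eq_one` since `p ≡ 2 mod 5`. -/
theorem no_root (hp : p % 40 = 17) (x : ZMod p) : x ^ 2 ≠ x + 1 := by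
  intro h
  have : Fact (Nat.Prime 5) := ⟨by norm_num⟩
  have h1 : IsSquare ((5 : ℕ) : ZMod p) := by
    refine ⟨2 * x - 1, ?_⟩
    push_cast
    linear_combination (-4 : ZMod p) * h
  rw [ZMod.exists_sq_eq_prime_iff_of_mod_four_eq_one (by omega) (by norm_num)] at h1
  have h2 : ((p : ℕ) : ZMod 5) = 2 := by
    have h3 : ((p : ℕ) : ZMod 5) = ((2 : ℕ) : ZMod 5) := by
      rw [ZMod.natCast_eq_natCast_iff]
      show p % 5 = 2 % 5
      omega
    rw [h3]
    rfl
  rw [h2] at h1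
  exact not_sq h1

/-- a nonzero vector and its shift are linearly independent. PROOF. `x * (x + y) - y * y = 0` with
`(x, y) ≠ 0` gives a root of `no_root` (`y / x`; `x = 0` gives `y = 0`). -/
theorem indep (hp : p % 40 = 17) (v : ZMod p × ZMod p) (hv : v ≠ 0) :
    v.1 * (sh v).2 - v.2 * (sh v).1 ≠ 0 := by
  intro h
  obtain ⟨x, y⟩ := v
  simp only [sh] at h
  by_cases hx : x = 0
  · subst hx
    have hy : y = 0 := by
      have : y * y = 0 := by linear_combination -h
      simpa using this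
    exact hv (by rw [hy]; rfl)
  · apply no_root hp (y / x)
    field_simp
    linear_combination -h

private lemma iter_lin (n : ℕ) (a b : ZMod p) (v v' : ZMod p × ZMod p) :
    sh^[n] (a * v.1 + b * v'.1, a * v.2 + b * v'.2) =
      (a * (sh^[n] v).1 + b * (sh^[n] v').1, a * (sh^[n] v).2 + b * (sh^[n] v').2) := by
  induction n with
  | zero => rfl
  | succ n ih =>
    rw [Function.iterate_succ_apply', Function.iterate_succ_apply', Function.iterate_succ_apply', ih]
    simp only [sh]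
    ext
    · rfl
    · show a * (sh^[n] v).1 + b * (sh^[n] v').1 + (a * (sh^[n] v).2 + b * (sh^[n] v').2) = _
      ring

private lemma cassini (m : ℕ) : ((Nat.fib m : ℕ) : ZMod p) * Nat.fib (m + 2) -
    (Nat.fib (m + 1) : ZMod p) ^ 2 = (-1) ^ (m + 1) := by
  induction m with
  | zero => simp
  | succ m ih =>
    have h1 : ((Nat.fib (m + 1 + 2) : ℕ) : ZMod p) = Nat.fib (m + 1) + Nat.fib (m + 1 + 1) := by
      rw [Nat.fib_add_two]
      push_cast
      ring
    have h2 : ((Nat.fib (m + 2) : ℕ) : ZMod p) = Nat.fib m + Nat.fib (m + 1) := by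
      rw [Nat.fib_add_two]
      push_cast
      ring
    have e1 : m + 1 + 1 = m + 2 := rfl
    rw [h1, e1]
    linear_combination (-1) * ih - (Nat.fib (m + 2) : ZMod p) * h2

/-- If `sh^[n] v = c v` for one `v ≠ 0` then for all vectors. PROOF. Also `sh^[n] (sh v) = c (sh v)`;
`v`, `sh v` are a basis (`indep`), `sh^[n]` is additive and commutes with scalars. -/
theorem scalar_of (hp : p % 40 = 17) (n : ℕ) (c : ZMod p) (v : ZMod p × ZMod p) (hv : v ≠ 0)
    (h : sh^[n] v = (c * v.1, c * v.2)) (w : ZMod p × ZMod p) :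
    sh^[n] w = (c * w.1, c * w.2) := by
  have hD := indep hp v hv
  have h2 : sh^[n] (sh v) = (c * (sh v).1, c * (sh v).2) := by
    rw [← Function.iterate_succ_apply, Function.iterate_succ_apply', h]
    simp only [sh]
    rw [mul_add]
  have h3 : w = ((w.1 * (sh v).2 - w.2 * (sh v).1) / (v.1 * (sh v).2 - v.2 * (sh v).1) * v.1 +
      (v.1 * w.2 - v.2 * w.1) / (v.1 * (sh v).2 - v.2 * (sh v).1) * (sh v).1,
      (w.1 * (sh v).2 - w.2 * (sh v).1) / (v.1 * (sh v).2 - v.2 * (sh v).1) * v.2 +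
      (v.1 * w.2 - v.2 * w.1) / (v.1 * (sh v).2 - v.2 * (sh v).1) * (sh v).2) := by
    ext
    · show w.1 = _
      rw [div_mul_eq_mul_div, div_mul_eq_mul_div, ← add_div, eq_div_iff hD]
      ring
    · show w.2 = (w.1 * (sh v).2 - w.2 * (sh v).1) / (v.1 * (sh v).2 - v.2 * (sh v).1) * v.2 +
        (v.1 * w.2 - v.2 * w.1) / (v.1 * (sh v).2 - v.2 * (sh v).1) * (sh v).2
      rw [div_mul_eq_mul_div, div_mul_eq_mul_div, ← add_div, eq_div_iff hD]
      ring
  have h4 := iter_lin n ((w.1 * (sh v).2 - w.2 * (sh v).1) / (v.1 * (sh v).2 - v.2 * (sh v).1))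
    ((v.1 * w.2 - v.2 * w.1) / (v.1 * (sh v).2 - v.2 * (sh v).1)) v (sh v)
  rw [← h3, h, h2] at h4
  rw [h4]
  have h5 := congrArg Prod.fst h3
  have h6 := congrArg Prod.snd h3
  simp only at h5 h6
  ext
  · show _ = c * w.1
    conv_rhs => rw [h5]
    ring
  · show _ = c * w.2
    conv_rhs => rw [h6]
    ring

/-- `p ∣ f_n` iff `sh^[n]` is a scalar (`sh_iter`; for `n ≥ 1`: `sh^[n] (1,0) = (f_{n-1}, f_n)`,
`f_{n+1} = f_n + f_{n-1}`); and then the scalar is a nonzero square if `p ≡ 1 mod 8`.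
PROOF of the last claim: `c ^ 2 = (-1) ^ n` (determinant: `f_{n-1} f_{n+1} - f_n ^ 2 = (-1) ^ n`, with
`f_n = 0`, `f_{n+1} = f_{n-1} = c`), so `c ^ 4 = 1` and `c ^ ((p-1)/2) = 1`, `ZMod.euler_criterion` or
`quadraticChar_eq_pow_of_char_ne_two`. -/
theorem fib_zero (hp : p % 40 = 17) (n : ℕ) (h : (Nat.fib n : ZMod p) = 0) :
    ∃ c : ZMod p, c ^ 4 = 1 ∧ quadraticChar (ZMod p) c = 1 ∧
      ∀ w : ZMod p × ZMod p, sh^[n] w = (c * w.1, c * w.2) := by
  rcases n with _ | m
  · exact ⟨1, one_pow 4, by simp, fun w => by simp⟩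
  · have h1 : ((Nat.fib (m + 2) : ℕ) : ZMod p) = Nat.fib m := by
      rw [Nat.fib_add_two]
      push_cast
      rw [h]
      ring
    have h2 := cassini (p := p) m
    rw [h, h1] at h2
    have h3 : ((Nat.fib m : ℕ) : ZMod p) ^ 4 = 1 := by
      have h4 : ((Nat.fib m : ℕ) : ZMod p) ^ 2 = (-1) ^ (m + 1) := by linear_combination h2
      calc ((Nat.fib m : ℕ) : ZMod p) ^ 4 = (((Nat.fib m : ℕ) : ZMod p) ^ 2) ^ 2 := by ring
        _ = ((-1) ^ (m + 1)) ^ 2 := by rw [h4]
        _ = ((-1 : ZMod p) ^ 2) ^ (m + 1) := by rw [← pow_mul, ← pow_mul, mul_comm]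
        _ = 1 := by norm_num
    have h5 : ((Nat.fib m : ℕ) : ZMod p) ≠ 0 := by
      intro h0
      rw [h0] at h3
      norm_num at h3
    refine ⟨Nat.fib m, h3, ?_, ?_⟩
    · rw [quadraticChar_one_iff_isSquare h5, ZMod.euler_criterion p h5]
      obtain ⟨k, hk⟩ : ∃ k, p / 2 = 4 * k := ⟨p / 2 / 4, by omega⟩
      rw [hk, pow_mul, h3, one_pow]
    · intro w
      rw [sh_iter, h, h1]
      ext
      · show (Nat.fib m : ZMod p) * w.1 + 0 * w.2 = _
        ring
      · show 0 * w.1 + (Nat.fib m : ZMod p) * w.2 = _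
        ring

theorem fib_zero' (hp : p % 40 = 17) (n : ℕ) (c : ZMod p) (v : ZMod p × ZMod p) (hv : v ≠ 0)
    (h : sh^[n] v = (c * v.1, c * v.2)) : (Nat.fib n : ZMod p) = 0 := by
  rcases n with _ | m
  · simp
  · have h1 := scalar_of hp (m + 1) c v hv h (1, 0)
    rw [sh_iter] at h1
    have h2 := congrArg Prod.snd h1
    simpa using h2

/-- the period: the smallest `m ≥ 1` with `sh^[m] = id` (exists: `sh` is a permutation of a finite
set) -/
noncomputable def pi0 (p : ℕ) : ℕ := sInf {m : ℕ | 1 ≤ m ∧ ∀ w : ZMod p × ZMod p, sh^[m] w = w}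

/-- the shift as a permutation -/
private def shE : Equiv.Perm (ZMod p × ZMod p) where
  toFun := sh
  invFun := fun v => (v.2 - v.1, v.1)
  left_inv := by
    intro v
    ext
    · show v.1 + v.2 - v.2 = v.1
      ring
    · rfl
  right_inv := by
    intro v
    ext
    · rfl
    · show v.2 - v.1 + v.1 = v.2
      ring

private lemma pi0_mem : 1 ≤ pi0 p ∧ ∀ w : ZMod p × ZMod p, sh^[pi0 p] w = w := by
  have h : {m : ℕ | 1 ≤ m ∧ ∀ w : ZMod p × ZMod p, sh^[m] w = w}.Nonempty := by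
    refine ⟨orderOf (shE (p := p)), orderOf_pos _, fun w => ?_⟩
    have h1 : sh^[orderOf (shE (p := p))] = ⇑(shE (p := p) ^ orderOf (shE (p := p))) :=
      Equiv.Perm.iterate_eq_pow (shE (p := p)) _
    rw [h1, pow_orderOf_eq_one]
    rfl
  exact Nat.sInf_mem h

theorem pi0_pos : 1 ≤ pi0 p := by
  exact (pi0_mem (p := p)).1

theorem sh_pi0 (w : ZMod p × ZMod p) : sh^[pi0 p] w = w := by
  exact (pi0_mem (p := p)).2 w

/-- the rank of apparition: the smallest `m ≥ 1` with `p ∣ f_m` -/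
noncomputable def rk (p : ℕ) : ℕ := sInf {m : ℕ | 1 ≤ m ∧ (Nat.fib m : ZMod p) = 0}

private lemma fib_pi0 : (Nat.fib (pi0 p) : ZMod p) = 0 := by
  have h := (pi0_mem (p := p)).2 (1, 0)
  have h1 := (pi0_mem (p := p)).1
  obtain ⟨m, hm⟩ : ∃ m, pi0 p = m + 1 := ⟨pi0 p - 1, by omega⟩
  rw [hm] at h ⊢
  rw [sh_iter] at h
  have h2 := congrArg Prod.snd h
  simpa using h2

private lemma rk_mem : 1 ≤ rk p ∧ (Nat.fib (rk p) : ZMod p) = 0 :=
  Nat.sInf_mem (s := {m : ℕ | 1 ≤ m ∧ (Nat.fib m : ZMod p) = 0}) ⟨pi0 p, pi0_mem.1, fib_pi0⟩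

theorem rk_pos : 1 ≤ rk p := by
  exact (rk_mem (p := p)).1

theorem fib_rk : (Nat.fib (rk p) : ZMod p) = 0 := by
  exact (rk_mem (p := p)).2

theorem rk_le {m : ℕ} (h1 : 1 ≤ m) (h : (Nat.fib m : ZMod p) = 0) : rk p ≤ m := Nat.sInf_le ⟨h1, h⟩

/-- PROOF. `sh^[rk] = c`, `c ^ 4 = 1`, so `sh^[4 rk] = id`. -/
theorem pi0_le (hp : p % 40 = 17) : pi0 p ≤ 4 * rk p := by
  obtain ⟨c, hc, -, hw⟩ := fib_zero hp (rk p) fib_rk
  refine Nat.sInf_le ⟨?_, fun w => ?_⟩
  · have := rk_pos (p := p)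
    omega
  · rw [mul_comm, Function.iterate_mul]
    simp only [Function.iterate_succ, Function.iterate_zero, Function.comp, id]
    rw [hw, hw, hw, hw]
    ext
    · show c * (c * (c * (c * w.1))) = w.1
      linear_combination w.1 * hc
    · show c * (c * (c * (c * w.2))) = w.2
      linear_combination w.2 * hc

/-- the period is large for large `p`. PROOF. `f_{pi0} ≡ 0 mod p` (as `sh^[pi0] (0,1) = (0,1)`), and
`f_{pi0} ≠ 0`, so `p ≤ f_{pi0}`; `f` is monotone (`Nat.fib_mono`): if `pi0 ≤ m` then `p ≤ f_m`. -/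
theorem pi0_large (hp : p % 40 = 17) (m : ℕ) (h : Nat.fib m < p) : m < pi0 p := by
  by_contra hcon
  push Not at hcon
  have h1 : Nat.fib (pi0 p) ≤ Nat.fib m := Nat.fib_mono hcon
  have h2 : (Nat.fib (pi0 p) : ZMod p) = 0 := fib_pi0
  rw [ZMod.natCast_eq_zero_iff] at h2
  have h3 : 0 < Nat.fib (pi0 p) := Nat.fib_pos.mpr pi0_pos
  have h4 := Nat.le_of_dvd h3 h2
  omega

/-- the period in the sense of the problem, for `(a, b) ≢ (0,0) mod p`.
PROOF. `sh_F`: `F (n+m) ≡ F n` for all `n` iff `sh^[m] (a,b) = (a,b)` iff `sh^[m] = id`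
(`scalar_of` with `c = 1`). -/
theorem per_eq (hp : p % 40 = 17) (a b : ℤ) (h : ((a : ZMod p), (b : ZMod p)) ≠ (0, 0)) :
    per p a b = pi0 p := by
  have hv : (((a : ZMod p), (b : ZMod p)) : ZMod p × ZMod p) ≠ 0 := h
  have key : ∀ m : ℕ, (∀ n, (p : ℤ) ∣ F a b (n + m) - F a b n) ↔
      ∀ w : ZMod p × ZMod p, sh^[m] w = w := by
    intro m
    have hd : ∀ i j : ℕ, (p : ℤ) ∣ F a b i - F a b j ↔
        ((F a b i : ℤ) : ZMod p) = ((F a b j : ℤ) : ZMod p) := by
      intro i j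
      rw [← ZMod.intCast_zmod_eq_zero_iff_dvd, Int.cast_sub, sub_eq_zero]
    constructor
    · intro hm w
      have h1 : sh^[m] ((a : ZMod p), (b : ZMod p)) =
          (1 * ((a : ZMod p), (b : ZMod p)).1, 1 * ((a : ZMod p), (b : ZMod p)).2) := by
        rw [sh_F]
        have h2 := (hd _ _).mp (hm 0)
        have h3 := (hd _ _).mp (hm 1)
        rw [zero_add] at h2
        rw [add_comm 1 m] at h3
        rw [h2, h3, one_mul, one_mul]
        rfl
      have h4 := scalar_of hp m 1 _ hv h1 w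
      rw [h4, one_mul, one_mul]
    · intro hm n
      rw [hd]
      have h1 := sh_F (p := p) a b (n + m)
      rw [Function.iterate_add_apply, hm, sh_F] at h1
      exact (congrArg Prod.fst h1).symm
  unfold per pi0
  congr 1
  ext m
  simp only [Set.mem_ofPred_eq]
  rw [key m]

end

end PL
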