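import Mathlib
import Pool.Agent.helper11.PL.Defs
import Pool.Agent.helper11.PL.Lin

/-! # PL-Mom: second moment and the number of large values on a line -/

namespace PL

section

variable {p : ℕ} [Fact p.Prime]

/-- `S(v)` for one period -/
noncomputable def S (v : ZMod p × ZMod p) : ℤ := SS p (pi0 p) v

private lemma mom_chi_abs (x : ZMod p) : |quadraticChar (ZMod p) x| ≤ 1 := by
  rcases quadraticChar_isQuadratic (ZMod p) x with h | h | h <;> rw [h] <;> norm_num

/-- PROOF. `|χ| ≤ 1`. -/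
theorem S_le (v : ZMod p × ZMod p) : |S v| ≤ pi0 p := by
  unfold S SS
  refine (Finset.abs_sum_le_sum_abs _ _).trans ?_
  refine (Finset.sum_le_sum (fun i _ => mom_chi_abs _)).trans ?_
  simp

/-- PROOF. `sh` permutes the terms of the sum (`sh^[pi0] v = v`). -/
theorem S_sh (v : ZMod p × ZMod p) : S (sh v) = S v := by
  unfold S SS
  have h1 := Finset.sum_range_succ' (fun i => quadraticChar (ZMod p) ((sh^[i] v).1)) (pi0 p)
  have h2 := Finset.sum_range_succ (fun i => quadraticChar (ZMod p) ((sh^[i] v).1)) (pi0 p)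
  simp only [sh_pi0, Function.iterate_zero, id_eq] at h1 h2
  have h3 : ∑ i ∈ Finset.range (pi0 p), quadraticChar (ZMod p) ((sh^[i] (sh v)).1) =
      ∑ i ∈ Finset.range (pi0 p), quadraticChar (ZMod p) ((sh^[i + 1] v).1) :=
    Finset.sum_congr rfl fun i _ => by rw [Function.iterate_succ_apply]
  rw [h3]
  linarith

private lemma mom_iter_smul (u : ZMod p) (i : ℕ) (v : ZMod p × ZMod p) :
    sh^[i] (u * v.1, u * v.2) = (u * (sh^[i] v).1, u * (sh^[i] v).2) := by
  induction i generalizing v with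
  | zero => rfl
  | succ n ih =>
    rw [Function.iterate_succ_apply, Function.iterate_succ_apply]
    have h : sh (u * v.1, u * v.2) = (u * (sh v).1, u * (sh v).2) := by
      simp [sh, mul_add]
    rw [h, ih]

/-- PROOF. `sh^[i] (u v) = u sh^[i] v`, `χ` is multiplicative. -/
theorem S_smul (u : ZMod p) (v : ZMod p × ZMod p) :
    S (u * v.1, u * v.2) = quadraticChar (ZMod p) u * S v := by
  unfold S SS
  rw [Finset.mul_sum]
  refine Finset.sum_congr rfl fun i _ => ?_
  rw [mom_iter_smul, map_mul]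

private lemma mom_S_smul_sq (u : ZMod p) (hu : u ≠ 0) (v : ZMod p × ZMod p) :
    S (u * v.1, u * v.2) ^ 2 = S v ^ 2 := by
  rw [S_smul, mul_pow, quadraticChar_sq_one hu, one_mul]

private lemma mom_S_smul_abs (u : ZMod p) (hu : u ≠ 0) (v : ZMod p × ZMod p) :
    |S (u * v.1, u * v.2)| = |S v| := by
  have h := mom_S_smul_sq u hu v
  exact (sq_eq_sq_iff_abs_eq_abs _ _).1 h

private lemma mom_S_iter (i : ℕ) (v : ZMod p × ZMod p) : S (sh^[i] v) = S v := by
  induction i generalizing v with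
  | zero => rfl
  | succ n ih => rw [Function.iterate_succ_apply, ih, S_sh]

private lemma mom_sh_inj : Function.Injective (sh : ZMod p × ZMod p → ZMod p × ZMod p) := by
  intro v w h
  unfold sh at h
  have h1 := congrArg Prod.fst h
  have h2 := congrArg Prod.snd h
  simp only at h1 h2
  rw [h1] at h2
  exact Prod.ext (add_right_cancel h2) h1

private lemma mom_iter_bij (i : ℕ) :
    Function.Bijective (sh^[i] : ZMod p × ZMod p → ZMod p × ZMod p) :=
  Finite.injective_iff_bijective.1 (mom_sh_inj.iterate i)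

private lemma mom_iter_zero (i : ℕ) : sh^[i] ((0, 0) : ZMod p × ZMod p) = (0, 0) := by
  have h := mom_iter_smul (p := p) 0 i (0, 0)
  simpa using h

private lemma mom_iter_ne (i : ℕ) (v : ZMod p × ZMod p) (hv : v ≠ 0) : sh^[i] v ≠ 0 := by
  intro h
  apply hv
  apply mom_sh_inj.iterate i
  rw [h]
  exact (mom_iter_zero i).symm

private lemma mom_S_zero : S ((0, 0) : ZMod p × ZMod p) = 0 := by
  unfold S SS
  refine Finset.sum_eq_zero fun i _ => ?_
  rw [mom_iter_zero]
  exact quadraticChar_zero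

private lemma mom_ringChar (hp : p % 40 = 17) : ringChar (ZMod p) ≠ 2 := by
  rw [ZMod.ringChar_zmod_n]
  rintro rfl
  omega

private lemma mom_affine (hp : p % 40 = 17) (a b : ZMod p) (hb : b ≠ 0) :
    ∑ y : ZMod p, quadraticChar (ZMod p) (a + b * y) = 0 := by
  have hbij : Function.Bijective (fun y : ZMod p => a + b * y) := by
    apply Finite.injective_iff_bijective.1
    intro y z h
    simp only at h
    exact mul_left_cancel₀ hb (add_left_cancel h)
  rw [Fintype.sum_bijective (fun y : ZMod p => a + b * y) hbij _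
    (fun z => quadraticChar (ZMod p) z) (fun _ => rfl)]
  exact quadraticChar_sum_zero (mom_ringChar hp)

private noncomputable def mom_R (p : ℕ) [Fact p.Prime] (d : ℕ) : ℤ :=
  ∑ w : ZMod p × ZMod p, quadraticChar (ZMod p) w.1 * quadraticChar (ZMod p) ((sh^[d] w).1)

private lemma mom_sum_sq : ∑ w : ZMod p × ZMod p, quadraticChar (ZMod p) w.1 ^ 2 =
    (p : ℤ) * (p - 1) := by
  have hp1 : 1 ≤ p := (Fact.out : p.Prime).one_lt.le
  have h1 : ∑ x : ZMod p, quadraticChar (ZMod p) x ^ 2 = (p : ℤ) - 1 := by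
    have h : ∀ x : ZMod p, quadraticChar (ZMod p) x ^ 2 = if x = 0 then 0 else 1 := by
      intro x
      by_cases hx : x = 0
      · rw [if_pos hx, hx, quadraticChar_zero]
        norm_num
      · rw [if_neg hx, quadraticChar_sq_one hx]
    rw [Finset.sum_congr rfl (fun x _ => h x)]
    have h2 : ∀ x : ZMod p, (if x = 0 then (0 : ℤ) else 1) = 1 - if x = 0 then 1 else 0 := by
      intro x
      by_cases hx : x = 0 <;> simp [hx]
    rw [Finset.sum_congr rfl (fun x _ => h2 x), Finset.sum_sub_distrib, Finset.sum_ite_eq']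
    simp [ZMod.card]
  rw [Fintype.sum_prod_type]
  have h3 : ∀ x : ZMod p, ∑ _y : ZMod p, quadraticChar (ZMod p) x ^ 2 =
      (p : ℤ) * quadraticChar (ZMod p) x ^ 2 := by
    intro x
    rw [Finset.sum_const, Finset.card_univ, ZMod.card, nsmul_eq_mul]
  simp only
  rw [Finset.sum_congr rfl (fun x _ => h3 x), ← Finset.mul_sum, h1]

private lemma mom_R_zero : mom_R p 0 = (p : ℤ) * (p - 1) := by
  unfold mom_R
  rw [← mom_sum_sq]
  refine Finset.sum_congr rfl fun w _ => ?_
  rw [sq]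
  rfl

private lemma mom_R_nonneg (hp : p % 40 = 17) (d : ℕ) : 0 ≤ mom_R p d := by
  by_cases hf : (Nat.fib d : ZMod p) = 0
  · obtain ⟨c, -, hc, hw⟩ := fib_zero hp d hf
    unfold mom_R
    refine Finset.sum_nonneg fun w _ => ?_
    rw [hw w, map_mul, hc, one_mul]
    exact mul_self_nonneg _
  · obtain ⟨n, rfl⟩ : ∃ n, d = n + 1 := by
      cases d with
      | zero => exact absurd (by simp) hf
      | succ n => exact ⟨n, rfl⟩
    unfold mom_R
    rw [Fintype.sum_prod_type]
    refine le_of_eq (Eq.symm ?_)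
    refine Finset.sum_eq_zero fun x _ => ?_
    simp only
    rw [← Finset.mul_sum]
    have h : ∑ y : ZMod p, quadraticChar (ZMod p) ((sh^[n + 1] (x, y)).1) = 0 := by
      rw [← mom_affine hp ((Nat.fib n : ZMod p) * x) (Nat.fib (n + 1) : ZMod p) hf]
      refine Finset.sum_congr rfl fun y _ => ?_
      rw [sh_iter]
    rw [h, mul_zero]

private noncomputable def mom_T (p : ℕ) [Fact p.Prime] (i j : ℕ) : ℤ :=
  ∑ v : ZMod p × ZMod p, quadraticChar (ZMod p) ((sh^[i] v).1) *
    quadraticChar (ZMod p) ((sh^[j] v).1)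

private lemma mom_T_eq (i d : ℕ) : mom_T p i (i + d) = mom_R p d := by
  unfold mom_T mom_R
  refine Fintype.sum_bijective _ (mom_iter_bij i) _ _ fun v => ?_
  rw [add_comm i d, Function.iterate_add_apply]

private lemma mom_T_symm (i j : ℕ) : mom_T p i j = mom_T p j i := by
  unfold mom_T
  exact Finset.sum_congr rfl fun v _ => mul_comm _ _

private lemma mom_T_nonneg (hp : p % 40 = 17) (i j : ℕ) : 0 ≤ mom_T p i j := by
  rcases le_total i j with h | h
  · obtain ⟨d, rfl⟩ := Nat.exists_eq_add_of_le h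
    rw [mom_T_eq]
    exact mom_R_nonneg hp d
  · obtain ⟨d, rfl⟩ := Nat.exists_eq_add_of_le h
    rw [mom_T_symm, mom_T_eq]
    exact mom_R_nonneg hp d

/-- SECOND MOMENT. PROOF. `∑_v S(v)^2 = ∑_{i,j < π} ∑_v χ((sh^[i] v).1) χ((sh^[j] v).1)`. For
`i ≤ j`, `j = i + d`, substitute `w = sh^[i] v` (a bijection): `∑_w χ(w_1) χ((sh^[d] w).1)` with
`(sh^[d] w).1 = f_{d-1} w_1 + f_d w_2` (`sh_iter`; `d = 0`: `w_1`). If `f_d ≠ 0` in `ZMod p` the sum over `w_2` is
zero (`quadraticChar_sum_zero`, `p ≠ 2`, affine substitution). If `f_d = 0` it is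
`∑_w χ(w_1) χ(c w_1) = ∑_w χ(w_1)^2 ≥ 0` (`fib_zero`), equal to `p (p - 1)` for `d = 0`. So only the `π`
diagonal terms are needed. -/
theorem second_moment (hp : p % 40 = 17) :
    (pi0 p : ℤ) * (p * (p - 1)) ≤ ∑ v : ZMod p × ZMod p, (S v) ^ 2 := by
  have hexp : ∑ v : ZMod p × ZMod p, (S v) ^ 2 =
      ∑ i ∈ Finset.range (pi0 p), ∑ j ∈ Finset.range (pi0 p), mom_T p i j := by
    unfold mom_T
    have h1 : ∀ v : ZMod p × ZMod p, (S v) ^ 2 = ∑ i ∈ Finset.range (pi0 p),
        ∑ j ∈ Finset.range (pi0 p), quadraticChar (ZMod p) ((sh^[i] v).1) *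
          quadraticChar (ZMod p) ((sh^[j] v).1) := by
      intro v
      unfold S SS
      rw [sq, Finset.sum_mul_sum]
    rw [Finset.sum_congr rfl (fun v _ => h1 v), Finset.sum_comm]
    refine Finset.sum_congr rfl fun i _ => ?_
    rw [Finset.sum_comm]
  rw [hexp]
  have h2 : ∀ i ∈ Finset.range (pi0 p), (p : ℤ) * (p - 1) ≤
      ∑ j ∈ Finset.range (pi0 p), mom_T p i j := by
    intro i hi
    have h3 := Finset.single_le_sum (f := fun j => mom_T p i j)
      (fun j _ => mom_T_nonneg hp i j) hi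
    have h4 : mom_T p i i = (p : ℤ) * (p - 1) := by
      have := mom_T_eq (p := p) i 0
      rw [add_zero] at this
      rw [this, mom_R_zero]
    calc (p : ℤ) * (p - 1) = mom_T p i i := h4.symm
      _ ≤ _ := h3
  calc (pi0 p : ℤ) * (p * (p - 1)) = ∑ i ∈ Finset.range (pi0 p), (p : ℤ) * (p - 1) := by
        simp
    _ ≤ _ := Finset.sum_le_sum h2

private lemma mom_lin_bij (v0 w : ZMod p × ZMod p) (hdet : v0.1 * w.2 - v0.2 * w.1 ≠ 0) :
    Function.Bijective (fun z : ZMod p × ZMod p =>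
      ((z.1 * v0.1 + z.2 * w.1, z.1 * v0.2 + z.2 * w.2) : ZMod p × ZMod p)) := by
  apply Finite.injective_iff_bijective.1
  intro z y h
  have h1 := congrArg Prod.fst h
  have h2 := congrArg Prod.snd h
  simp only at h1 h2
  have e1 : (z.1 - y.1) * (v0.1 * w.2 - v0.2 * w.1) = 0 := by
    linear_combination w.2 * h1 - w.1 * h2
  have e2 : (z.2 - y.2) * (v0.1 * w.2 - v0.2 * w.1) = 0 := by
    linear_combination v0.1 * h2 - v0.2 * h1
  have e3 := (mul_eq_zero.1 e1).resolve_right hdet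
  have e4 := (mul_eq_zero.1 e2).resolve_right hdet
  exact Prod.ext (sub_eq_zero.1 e3) (sub_eq_zero.1 e4)

/-- The second moment on a line `v_t = v_0 + t w` not through the origin.
PROOF. Every `v` which is not a multiple of `w` is `u v_t` for unique `u ≠ 0`, `t`, and
`S(u v_t)^2 = S(v_t)^2`; the nonzero multiples `u w` have `S(u w)^2 = S(w)^2`; `S(0) = 0`. So
`∑_v S(v)^2 = (p - 1) (∑_t S(v_t)^2 + S(w)^2)`. -/
theorem line_moment (hp : p % 40 = 17) (v0 w : ZMod p × ZMod p)
    (hdet : v0.1 * w.2 - v0.2 * w.1 ≠ 0) :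
    (pi0 p : ℤ) * p ≤ ∑ t : ZMod p, (S (v0.1 + t * w.1, v0.2 + t * w.2)) ^ 2 + (S w) ^ 2 := by
  have hp1 : 1 < p := (Fact.out : p.Prime).one_lt
  have hsm := second_moment hp
  have h1 : ∑ v : ZMod p × ZMod p, (S v) ^ 2 = ∑ x : ZMod p, ∑ y : ZMod p,
      (S (x * v0.1 + y * w.1, x * v0.2 + y * w.2)) ^ 2 := by
    rw [← Fintype.sum_prod_type' (f := fun x y : ZMod p =>
      (S (x * v0.1 + y * w.1, x * v0.2 + y * w.2)) ^ 2)]
    exact (Fintype.sum_bijective _ (mom_lin_bij v0 w hdet) _ _ (fun z => rfl)).symm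
  set A : ℤ := ∑ t : ZMod p, (S (v0.1 + t * w.1, v0.2 + t * w.2)) ^ 2 with hA
  have h2 : ∀ x : ZMod p, x ≠ 0 → ∑ y : ZMod p,
      (S (x * v0.1 + y * w.1, x * v0.2 + y * w.2)) ^ 2 = A := by
    intro x hx
    rw [hA]
    have hbij : Function.Bijective (fun t : ZMod p => x * t) := by
      apply Finite.injective_iff_bijective.1
      intro y z h
      exact mul_left_cancel₀ hx h
    refine (Fintype.sum_bijective _ hbij _ _ (fun t => ?_)).symm
    rw [← mom_S_smul_sq x hx]
    congr 3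
    · ring
    · ring
  have h3 : ∑ y : ZMod p, (S ((0 : ZMod p) * v0.1 + y * w.1, (0 : ZMod p) * v0.2 + y * w.2)) ^ 2 =
      ((p : ℤ) - 1) * (S w) ^ 2 := by
    have h4 : ∀ y : ZMod p, (S ((0 : ZMod p) * v0.1 + y * w.1, (0 : ZMod p) * v0.2 + y * w.2)) ^ 2 =
        (S w) ^ 2 - if y = 0 then (S w) ^ 2 else 0 := by
      intro y
      rw [zero_mul, zero_mul, zero_add, zero_add]
      by_cases hy : y = 0
      · rw [if_pos hy, hy, zero_mul, zero_mul, mom_S_zero]
        ring
      · rw [if_neg hy, mom_S_smul_sq y hy w]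
        ring
    rw [Finset.sum_congr rfl (fun y _ => h4 y), Finset.sum_sub_distrib, Finset.sum_ite_eq']
    simp only [Finset.sum_const, Finset.card_univ, ZMod.card, nsmul_eq_mul, Finset.mem_univ,
      if_true]
    ring
  have h5 : ∑ x : ZMod p, ∑ y : ZMod p, (S (x * v0.1 + y * w.1, x * v0.2 + y * w.2)) ^ 2 =
      ((p : ℤ) - 1) * A + ((p : ℤ) - 1) * (S w) ^ 2 := by
    rw [← Finset.add_sum_erase _ _ (Finset.mem_univ (0 : ZMod p)), h3]
    rw [Finset.sum_congr rfl (fun x hx => h2 x (Finset.ne_of_mem_erase hx))]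
    rw [Finset.sum_const, Finset.card_erase_of_mem (Finset.mem_univ _), Finset.card_univ,
      ZMod.card, nsmul_eq_mul, Nat.cast_sub hp1.le]
    push_cast
    ring
  rw [h1, h5] at hsm
  have hpos : (0 : ℤ) < (p : ℤ) - 1 := by
    have : (1 : ℤ) < p := by exact_mod_cast hp1
    linarith
  have h6 : ((p : ℤ) - 1) * ((pi0 p : ℤ) * p) ≤ ((p : ℤ) - 1) * (A + (S w) ^ 2) := by
    nlinarith [hsm]
  exact le_of_mul_le_mul_left h6 hpos

private lemma mom_pi0_two : 2 ≤ pi0 p := by
  have hp1 : 1 < p := (Fact.out : p.Prime).one_lt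
  have h := pi0_pos (p := p)
  by_contra hlt
  have h1 : pi0 p = 1 := by omega
  have h2 := sh_pi0 (p := p) (0, 1)
  rw [h1] at h2
  have h3 := congrArg Prod.fst h2
  simp [sh] at h3

private lemma mom_card (K : ℕ) (v0 w : ZMod p × ZMod p) :
    Nat.card {t : ZMod p // (K : ℤ) < |S (v0.1 + t * w.1, v0.2 + t * w.2)|} =
      (Finset.univ.filter (fun t : ZMod p =>
        (K : ℤ) < |S (v0.1 + t * w.1, v0.2 + t * w.2)|)).card :=
  Nat.subtype_card _ (by simp)

/-- The number of large values on a line, small period.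
PROOF. `(S w)^2 ≤ π^2 ≤ p ≤ π p / 2` (`π ≥ 2`), so `∑_t S(v_t)^2 ≥ π p / 2`; if `G` is the number of `t` with
`|S(v_t)| > K` then `π p / 2 ≤ G π^2 + K^2 p`, and `K^2 ≤ π / 4`, so `G π^2 ≥ π p / 4`, `4 G π ≥ p`,
`16 G^2 π^2 ≥ p^2`, and `π^2 ≤ p` gives `16 G^2 ≥ p`. -/
theorem count_small (hp : p % 40 = 17) (K : ℕ) (hK : 4 * K ^ 2 ≤ pi0 p)
    (h : (pi0 p) ^ 2 ≤ p) (v0 w : ZMod p × ZMod p) (hdet : v0.1 * w.2 - v0.2 * w.1 ≠ 0) :
    p ≤ 16 * (Nat.card {t : ZMod p // (K : ℤ) < |S (v0.1 + t * w.1, v0.2 + t * w.2)|}) ^ 2 := by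
  have hp1 : 1 < p := (Fact.out : p.Prime).one_lt
  have hlm := line_moment hp v0 w hdet
  have hpi2 := mom_pi0_two (p := p)
  rw [mom_card]
  set G := (Finset.univ.filter (fun t : ZMod p =>
        (K : ℤ) < |S (v0.1 + t * w.1, v0.2 + t * w.2)|)).card with hG
  have h1 : ∑ t : ZMod p, (S (v0.1 + t * w.1, v0.2 + t * w.2)) ^ 2 ≤
      (G : ℤ) * (pi0 p : ℤ) ^ 2 + (p : ℤ) * (K : ℤ) ^ 2 := by
    have h2 : ∀ t : ZMod p, (S (v0.1 + t * w.1, v0.2 + t * w.2)) ^ 2 ≤
        (if (K : ℤ) < |S (v0.1 + t * w.1, v0.2 + t * w.2)| then (pi0 p : ℤ) ^ 2 else 0) +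
          (K : ℤ) ^ 2 := by
      intro t
      by_cases ht : (K : ℤ) < |S (v0.1 + t * w.1, v0.2 + t * w.2)|
      · rw [if_pos ht, ← sq_abs]
        have h3 := S_le (v0.1 + t * w.1, v0.2 + t * w.2)
        have h4 : |S (v0.1 + t * w.1, v0.2 + t * w.2)| ^ 2 ≤ (pi0 p : ℤ) ^ 2 :=
          pow_le_pow_left₀ (abs_nonneg _) h3 2
        have h5 : (0 : ℤ) ≤ (K : ℤ) ^ 2 := sq_nonneg _
        linarith
      · rw [if_neg ht, zero_add, ← sq_abs]
        exact pow_le_pow_left₀ (abs_nonneg _) (not_lt.1 ht) 2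
    refine (Finset.sum_le_sum (fun t _ => h2 t)).trans ?_
    rw [Finset.sum_add_distrib, ← Finset.sum_filter, Finset.sum_const, Finset.sum_const,
      Finset.card_univ, ZMod.card, nsmul_eq_mul, nsmul_eq_mul]
  have h6 : (S w) ^ 2 ≤ (pi0 p : ℤ) ^ 2 := by
    rw [← sq_abs]
    exact pow_le_pow_left₀ (abs_nonneg _) (S_le w) 2
  have h7 : ((pi0 p : ℤ)) ^ 2 ≤ p := by exact_mod_cast h
  have h8 : 4 * (K : ℤ) ^ 2 ≤ pi0 p := by exact_mod_cast hK
  have h9 : (2 : ℤ) ≤ pi0 p := by exact_mod_cast hpi2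
  have hp0 : (0 : ℤ) < p := by exact_mod_cast (by omega : 0 < p)
  have h10 : (pi0 p : ℤ) * p ≤ (G : ℤ) * (pi0 p : ℤ) ^ 2 + (p : ℤ) * (K : ℤ) ^ 2 + p := by
    linarith
  -- multiply by four
  have h11 : (pi0 p : ℤ) * p ≤ 4 * (G : ℤ) * (pi0 p : ℤ) ^ 2 := by
    have e1 : (p : ℤ) * (4 * (K : ℤ) ^ 2) ≤ p * pi0 p := mul_le_mul_of_nonneg_left h8 hp0.le
    have e2 : (p : ℤ) * 2 ≤ p * pi0 p := mul_le_mul_of_nonneg_left h9 hp0.le
    nlinarith [e1, e2, h10]
  have hpi0 : (0 : ℤ) < pi0 p := by linarith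
  have h12 : (p : ℤ) ≤ 4 * (G : ℤ) * (pi0 p : ℤ) := by
    have e1 : (pi0 p : ℤ) * p ≤ (pi0 p : ℤ) * (4 * (G : ℤ) * (pi0 p : ℤ)) := by
      nlinarith [h11]
    exact le_of_mul_le_mul_left e1 hpi0
  have h13 : (p : ℤ) ^ 2 ≤ (4 * (G : ℤ) * (pi0 p : ℤ)) ^ 2 :=
    pow_le_pow_left₀ hp0.le h12 2
  have h14 : (p : ℤ) * p ≤ p * (16 * (G : ℤ) ^ 2) := by
    have e1 : (16 * (G : ℤ) ^ 2) * (pi0 p : ℤ) ^ 2 ≤ (16 * (G : ℤ) ^ 2) * p :=
      mul_le_mul_of_nonneg_left h7 (by positivity)
    nlinarith [h13, e1]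
  have h15 := le_of_mul_le_mul_left h14 hp0
  exact_mod_cast h15

/-- The number of large values on a line, large period.
PROOF. By `line_moment` some vector `v ≠ 0` (one of the `p` vectors `v_t`, or `w`) has
`S(v)^2 ≥ π p / (p + 1) > K^2` (`K^2 ≤ π / 4`), so `|S v| > K`. The vectors `sh^[i] v`, `i < rk`, have the same `S` and
are pairwise not proportional (`fib_zero'`, `rk_le`), so at most one of them is a multiple of `w`, and
the others are multiples of pairwise different `v_t` (with `|S v_t| = |S v|`). So `G ≥ rk - 1`, where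
`rk ≥ π / 4`, `π^2 > p`: `4 (G + 1) ≥ π`, so `p < 16 (G + 1)^2`. -/
theorem count_large (hp : p % 40 = 17) (K : ℕ) (hK : 4 * K ^ 2 ≤ pi0 p) (hpi : 2 ≤ pi0 p)
    (h : p < (pi0 p) ^ 2) (v0 w : ZMod p × ZMod p) (hdet : v0.1 * w.2 - v0.2 * w.1 ≠ 0) :
    p < 16 * (Nat.card {t : ZMod p // (K : ℤ) < |S (v0.1 + t * w.1, v0.2 + t * w.2)|} + 1) ^ 2 := by
  have hp1 : 1 < p := (Fact.out : p.Prime).one_lt
  have hlm := line_moment hp v0 w hdet
  -- a nonzero vector with a large value
  have hex : ∃ v : ZMod p × ZMod p, v ≠ 0 ∧ (K : ℤ) < |S v| := by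
    by_contra hno
    push Not at hno
    have hsq : ∀ v : ZMod p × ZMod p, v ≠ 0 → (S v) ^ 2 ≤ (K : ℤ) ^ 2 := by
      intro v hv
      rw [← sq_abs]
      exact pow_le_pow_left₀ (abs_nonneg _) (hno v hv) 2
    have hw0 : w ≠ 0 := by
      rintro rfl
      apply hdet
      simp
    have hvt : ∀ t : ZMod p, ((v0.1 + t * w.1, v0.2 + t * w.2) : ZMod p × ZMod p) ≠ 0 := by
      intro t h0
      have e1 := congrArg Prod.fst h0
      have e2 := congrArg Prod.snd h0
      simp only [Prod.fst_zero, Prod.snd_zero] at e1 e2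
      apply hdet
      linear_combination w.2 * e1 - w.1 * e2
    have h1 : ∑ t : ZMod p, (S (v0.1 + t * w.1, v0.2 + t * w.2)) ^ 2 ≤ (p : ℤ) * (K : ℤ) ^ 2 := by
      refine (Finset.sum_le_sum (fun t _ => hsq _ (hvt t))).trans ?_
      rw [Finset.sum_const, Finset.card_univ, ZMod.card, nsmul_eq_mul]
    have h2 := hsq w hw0
    have h3 : (pi0 p : ℤ) * p ≤ ((p : ℤ) + 1) * (K : ℤ) ^ 2 := by linarith
    have h4 : 4 * (K : ℤ) ^ 2 ≤ pi0 p := by exact_mod_cast hK
    have h5 : (1 : ℤ) < p := by exact_mod_cast hp1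
    have h6 : (2 : ℤ) ≤ pi0 p := by exact_mod_cast hpi
    have h7 : ((p : ℤ) + 1) * (4 * (K : ℤ) ^ 2) ≤ ((p : ℤ) + 1) * pi0 p :=
      mul_le_mul_of_nonneg_left h4 (by linarith)
    nlinarith [h3, h7, h5, h6]
  obtain ⟨v, hv0, hvK⟩ := hex
  -- coordinates
  have hco : ∀ i : ℕ, ∃ z : ZMod p × ZMod p,
      ((z.1 * v0.1 + z.2 * w.1, z.1 * v0.2 + z.2 * w.2) : ZMod p × ZMod p) = sh^[i] v :=
    fun i => (mom_lin_bij v0 w hdet).2 (sh^[i] v)
  choose z hz using hco
  -- two proportional shifts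
  have hprop : ∀ i j : ℕ, i < j → j < rk p → ∀ c : ZMod p,
      sh^[j] v ≠ (c * (sh^[i] v).1, c * (sh^[i] v).2) := by
    intro i j hij hj c hc
    have h1 : sh^[j - i] (sh^[i] v) = (c * (sh^[i] v).1, c * (sh^[i] v).2) := by
      rw [← Function.iterate_add_apply, Nat.sub_add_cancel hij.le, hc]
    have h2 := fib_zero' hp (j - i) c (sh^[i] v) (mom_iter_ne i v hv0) h1
    have h3 := rk_le (p := p) (m := j - i) (by omega) h2
    omega
  have hcard : rk p ≤ (Finset.univ.filter (fun t : ZMod p =>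
        (K : ℤ) < |S (v0.1 + t * w.1, v0.2 + t * w.2)|)).card + 1 := by
    -- at most one index has first coordinate zero
    set I := Finset.range (rk p) with hI
    set I0 := I.filter (fun i => (z i).1 = 0) with hI0
    set I1 := I.filter (fun i => ¬ (z i).1 = 0) with hI1
    have hsplit : I0.card + I1.card = I.card := Finset.card_filter_add_card_filter_not _
    have hI0c : I0.card ≤ 1 := by
      rw [Finset.card_le_one]
      have key : ∀ i ∈ I0, ∀ j ∈ I0, i < j → False := by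
        intro i hi j hj hij
        rw [hI0, Finset.mem_filter, hI, Finset.mem_range] at hi hj
        have e1 := hz i
        have e2 := hz j
        rw [hi.2, zero_mul, zero_mul, zero_add, zero_add] at e1
        rw [hj.2, zero_mul, zero_mul, zero_add, zero_add] at e2
        have hne : (z i).2 ≠ 0 := by
          intro h0
          rw [h0, zero_mul, zero_mul] at e1
          exact mom_iter_ne i v hv0 e1.symm
        refine hprop i j hij hj.1 ((z j).2 / (z i).2) ?_
        rw [← e1, ← e2]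
        refine Prod.ext ?_ ?_
        · simp only
          rw [← mul_assoc, div_mul_cancel₀ _ hne]
        · simp only
          rw [← mul_assoc, div_mul_cancel₀ _ hne]
      intro i hi j hj
      rcases lt_trichotomy i j with h1 | h1 | h1
      · exact (key i hi j hj h1).elim
      · exact h1
      · exact (key j hj i hi h1).elim
    have hI1c : I1.card ≤ (Finset.univ.filter (fun t : ZMod p =>
        (K : ℤ) < |S (v0.1 + t * w.1, v0.2 + t * w.2)|)).card := by
      apply Finset.card_le_card_of_injOn (fun i => (z i).2 / (z i).1)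
      · intro i hi
        rw [Finset.mem_coe, hI1, Finset.mem_filter] at hi
        rw [Finset.mem_coe, Finset.mem_filter]
        refine ⟨Finset.mem_univ _, ?_⟩
        have e1 : ((z i).1 * (v0.1 + (z i).2 / (z i).1 * w.1),
            (z i).1 * (v0.2 + (z i).2 / (z i).1 * w.2)) = sh^[i] v := by
          rw [← hz i]
          refine Prod.ext ?_ ?_
          · simp only
            have := hi.2
            field_simp
          · simp only
            have := hi.2
            field_simp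
        have e2 := mom_S_smul_abs (z i).1 hi.2
          (v0.1 + (z i).2 / (z i).1 * w.1, v0.2 + (z i).2 / (z i).1 * w.2)
        simp only at e2
        rw [e1, mom_S_iter] at e2
        rw [← e2]
        exact hvK
      · have key : ∀ i ∈ I1, ∀ j ∈ I1, i < j → (z i).2 / (z i).1 ≠ (z j).2 / (z j).1 := by
          intro i hi j hj hij heq
          rw [hI1, Finset.mem_filter, hI, Finset.mem_range] at hi hj
          refine hprop i j hij hj.1 ((z j).1 / (z i).1) ?_
          rw [← hz i, ← hz j]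
          have e1 : (z j).2 = (z j).1 / (z i).1 * (z i).2 := by
            rw [div_eq_div_iff hi.2 hj.2] at heq
            rw [div_mul_eq_mul_div, eq_div_iff hi.2]
            linear_combination -heq
          have e2 : (z j).1 = (z j).1 / (z i).1 * (z i).1 := by
            rw [div_mul_cancel₀ _ hi.2]
          refine Prod.ext ?_ ?_
          · simp only
            rw [e1]
            nth_rewrite 1 [e2]
            ring
          · simp only
            rw [e1]
            nth_rewrite 1 [e2]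
            ring
        intro i hi j hj heq
        rw [Finset.mem_coe] at hi hj
        rcases lt_trichotomy i j with h1 | h1 | h1
        · exact (key i hi j hj h1 heq).elim
        · exact h1
        · exact (key j hj i hi h1 heq.symm).elim
    have hIc : I.card = rk p := by rw [hI, Finset.card_range]
    omega
  rw [mom_card]
  have hpl := pi0_le hp
  set G := (Finset.univ.filter (fun t : ZMod p =>
        (K : ℤ) < |S (v0.1 + t * w.1, v0.2 + t * w.2)|)).card with hG
  have h1 : pi0 p ≤ 4 * (G + 1) := by omega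
  calc p < (pi0 p) ^ 2 := h
    _ ≤ (4 * (G + 1)) ^ 2 := Nat.pow_le_pow_left h1 2
    _ = 16 * (G + 1) ^ 2 := by ring

/-- PROOF. From the two cases. -/
theorem count_line (hp : p % 40 = 17) (K : ℕ) (hK : Nat.fib (4 * K ^ 2 + 2) < p)
    (v0 w : ZMod p × ZMod p) (hdet : v0.1 * w.2 - v0.2 * w.1 ≠ 0) :
    p ≤ 16 * (Nat.card {t : ZMod p // (K : ℤ) < |S (v0.1 + t * w.1, v0.2 + t * w.2)|} + 1) ^ 2 := by
  have h1 := pi0_large hp _ hK
  rcases Nat.lt_or_ge p ((pi0 p) ^ 2) with h | h
  · exact (count_large hp K (by omega) (by omega) h v0 w hdet).le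
  · refine (count_small hp K (by omega) h v0 w hdet).trans ?_
    exact Nat.mul_le_mul_left _ (Nat.pow_le_pow_left (Nat.le_succ _) 2)

private noncomputable def mom_L (p : ℕ) [Fact p.Prime] (e : ℤ) (v : ZMod p × ZMod p) : ℕ :=
  ((Finset.range (pi0 p)).filter (fun i => quadraticChar (ZMod p) ((sh^[i] v).1) = e)).card

private lemma mom_lam_eq (hp : p % 40 = 17) (a b : ℤ)
    (h : ((a : ZMod p), (b : ZMod p)) ≠ (0, 0)) (e : ℤ) :
    lam p e a b = mom_L p e ((a : ZMod p), (b : ZMod p)) := by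
  unfold lam mom_L
  rw [per_eq hp a b h]
  apply Nat.subtype_card
  intro i
  rw [Finset.mem_filter, Finset.mem_range, sh_F]
  exact Iff.rfl

private lemma mom_L_split (v : ZMod p × ZMod p) :
    S v = (mom_L p 1 v : ℤ) - mom_L p (-1) v ∧
    (pi0 p : ℤ) = (mom_L p 1 v : ℤ) + mom_L p (-1) v + mom_L p 0 v := by
  have hL : ∀ e : ℤ, (mom_L p e v : ℤ) = ∑ i ∈ Finset.range (pi0 p),
      if quadraticChar (ZMod p) ((sh^[i] v).1) = e then (1 : ℤ) else 0 := by
    intro e
    unfold mom_L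
    rw [Finset.card_filter]
    push_cast
    rfl
  constructor
  · rw [hL, hL, ← Finset.sum_sub_distrib]
    unfold S SS
    refine Finset.sum_congr rfl fun i _ => ?_
    rcases quadraticChar_isQuadratic (ZMod p) ((sh^[i] v).1) with h | h | h <;> rw [h] <;> norm_num
  · rw [hL, hL, hL, ← Finset.sum_add_distrib, ← Finset.sum_add_distrib]
    have h1 : (pi0 p : ℤ) = ∑ i ∈ Finset.range (pi0 p), (1 : ℤ) := by simp
    rw [h1]
    refine Finset.sum_congr rfl fun i _ => ?_
    rcases quadraticChar_isQuadratic (ZMod p) ((sh^[i] v).1) with h | h | h <;> rw [h] <;> norm_num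

private lemma mom_L_zero (hp : p % 40 = 17) (v : ZMod p × ZMod p) (hv : v ≠ 0) :
    mom_L p 0 v ≤ 4 := by
  unfold mom_L
  have hrk := rk_pos (p := p)
  have hpl := pi0_le hp
  have hmem : ∀ i ∈ (Finset.range (pi0 p)).filter
      (fun i => quadraticChar (ZMod p) ((sh^[i] v).1) = 0), i < pi0 p ∧ (sh^[i] v).1 = 0 := by
    intro i hi
    rw [Finset.mem_filter, Finset.mem_range] at hi
    exact ⟨hi.1, quadraticChar_eq_zero_iff.1 hi.2⟩
  have h4 : (Finset.range 4).card = 4 := Finset.card_range 4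
  rw [← h4]
  apply Finset.card_le_card_of_injOn (fun i => i / rk p)
  · intro i hi
    rw [Finset.mem_coe] at hi
    have := (hmem i hi).1
    rw [Finset.mem_coe, Finset.mem_range]
    rw [Nat.div_lt_iff_lt_mul (by omega)]
    omega
  · have key : ∀ i j : ℕ, (sh^[i] v).1 = 0 → (sh^[j] v).1 = 0 → i < j → i / rk p ≠ j / rk p := by
      intro i j hi hj hij heq
      have h1 : rk p ≤ j - i := by
        have hne := mom_iter_ne i v hv
        have hy : (sh^[i] v).2 ≠ 0 := by
          intro h0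
          exact hne (Prod.ext hi h0)
        refine rk_le (by omega) (fib_zero' hp (j - i) ((sh^[j] v).2 / (sh^[i] v).2)
          (sh^[i] v) hne ?_)
        rw [← Function.iterate_add_apply, Nat.sub_add_cancel hij.le]
        refine Prod.ext ?_ ?_
        · simp only
          rw [hi, hj, mul_zero]
        · simp only
          rw [div_mul_cancel₀ _ hy]
      have h6 := Nat.div_add_mod i (rk p)
      have h7 := Nat.div_add_mod j (rk p)
      have h8 := Nat.mod_lt j (by omega : 0 < rk p)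
      rw [← heq] at h7
      omega
    intro i hi j hj heq
    rw [Finset.mem_coe] at hi hj
    simp only at heq
    rcases lt_trichotomy i j with h1 | h1 | h1
    · exact (key i j (hmem i hi).2 (hmem j hj).2 h1 heq).elim
    · exact h1
    · exact (key j i (hmem j hj).2 (hmem i hi).2 h1 heq.symm).elim

/-- the value `k` of the problem. PROOF. `per_eq`; `legendreSym p x = quadraticChar (ZMod p) x`;
`λ_1 - λ_{-1} = ∑ χ` and `λ_0 ≤ 4`: the `i < π` with `F_i ≡ 0`: `rk` divides differences of such `i`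
(if `F_i ≡ F_j ≡ 0`, `i < j`, then `sh^[j] v` and `sh^[i] v` are both multiples of `(0,1)`, so
`sh^[j-i]` is scalar and `f_{j-i} = 0`, so `j - i ≥ rk`); `π ≤ 4 rk`, so there are at most `4`
such `i`. -/
theorem kval_S (hp : p % 40 = 17) (a b : ℤ) (h : ((a : ZMod p), (b : ZMod p)) ≠ (0, 0)) :
    |S ((a : ZMod p), (b : ZMod p))| - 4 ≤ |kval p a b| := by
  have h0 : mom_L p 0 ((a : ZMod p), (b : ZMod p)) ≤ 4 := mom_L_zero hp _ h
  obtain ⟨h1, -⟩ := mom_L_split ((a : ZMod p), (b : ZMod p))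
  have h2 : kval p a b = S ((a : ZMod p), (b : ZMod p)) -
      mom_L p 0 ((a : ZMod p), (b : ZMod p)) := by
    unfold kval
    rw [mom_lam_eq hp a b h, mom_lam_eq hp a b h, mom_lam_eq hp a b h, h1]
  have h3 : (mom_L p 0 ((a : ZMod p), (b : ZMod p)) : ℤ) ≤ 4 := by exact_mod_cast h0
  have h4 : (0 : ℤ) ≤ (mom_L p 0 ((a : ZMod p), (b : ZMod p)) : ℤ) := by positivity
  have h5 := abs_sub_abs_le_abs_sub (S ((a : ZMod p), (b : ZMod p)))
    (mom_L p 0 ((a : ZMod p), (b : ZMod p)) : ℤ)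
  rw [← h2, abs_of_nonneg h4] at h5
  linarith

/-- PROOF. The three numbers `λ` add up to the period (or less); `per_eq`. -/
theorem kval_le (hp : p % 40 = 17) (a b : ℤ) (h : ((a : ZMod p), (b : ZMod p)) ≠ (0, 0)) :
    |kval p a b| ≤ pi0 p := by
  obtain ⟨-, h1⟩ := mom_L_split ((a : ZMod p), (b : ZMod p))
  have h2 : kval p a b = (mom_L p 1 ((a : ZMod p), (b : ZMod p)) : ℤ) -
      mom_L p (-1) ((a : ZMod p), (b : ZMod p)) - mom_L p 0 ((a : ZMod p), (b : ZMod p)) := by
    unfold kval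
    rw [mom_lam_eq hp a b h, mom_lam_eq hp a b h, mom_lam_eq hp a b h]
  have e1 : (0 : ℤ) ≤ (mom_L p 1 ((a : ZMod p), (b : ZMod p)) : ℤ) := by positivity
  have e2 : (0 : ℤ) ≤ (mom_L p (-1) ((a : ZMod p), (b : ZMod p)) : ℤ) := by positivity
  have e3 : (0 : ℤ) ≤ (mom_L p 0 ((a : ZMod p), (b : ZMod p)) : ℤ) := by positivity
  rw [h1, h2, abs_le]
  constructor <;> linarith

end

end PL
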