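import Mathlib
import Pool.Agent.helper11.PL.Defs
import Pool.Agent.helper11.PL.Lin
import Pool.Agent.helper11.PL.Mom
import Pool.Agent.helper11.PL.Dens

/-! # PL-Fin: almost all pairs on a line have many values -/

namespace PL

private theorem fin_box (N : ℕ) (P : ℤ → Prop) : {t : ℤ | |t| ≤ N ∧ P t}.Finite := by
  refine (Set.finite_Icc (-(N : ℤ)) N).subset ?_
  rintro t ⟨ht, -⟩
  exact ⟨(abs_le.1 ht).1, (abs_le.1 ht).2⟩

private theorem card_or (N : ℕ) (P Q R : ℤ → Prop) (h : ∀ t : ℤ, |t| ≤ N → P t → Q t ∨ R t) :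
    (Nat.card {t : ℤ // |t| ≤ N ∧ P t} : ℝ) ≤
      Nat.card {t : ℤ // |t| ≤ N ∧ Q t} + Nat.card {t : ℤ // |t| ≤ N ∧ R t} := by
  have h1 : Nat.card {t : ℤ // |t| ≤ N ∧ P t} = Set.ncard {t : ℤ | |t| ≤ N ∧ P t} :=
    Nat.card_coe_set_eq _
  have h2 : Nat.card {t : ℤ // |t| ≤ N ∧ Q t} = Set.ncard {t : ℤ | |t| ≤ N ∧ Q t} :=
    Nat.card_coe_set_eq _
  have h3 : Nat.card {t : ℤ // |t| ≤ N ∧ R t} = Set.ncard {t : ℤ | |t| ≤ N ∧ R t} :=
    Nat.card_coe_set_eq _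
  rw [h1, h2, h3]
  have h4 : {t : ℤ | |t| ≤ N ∧ P t} ⊆ {t : ℤ | |t| ≤ N ∧ Q t} ∪ {t : ℤ | |t| ≤ N ∧ R t} := by
    rintro t ⟨ht, hP⟩
    rcases h t ht hP with hQ | hR
    · exact Or.inl ⟨ht, hQ⟩
    · exact Or.inr ⟨ht, hR⟩
  have h5 := Set.ncard_le_ncard h4 ((fin_box N Q).union (fin_box N R))
  have h6 := h5.trans (Set.ncard_union_le _ _)
  exact_mod_cast h6

private theorem card_mono (N : ℕ) (P Q : ℤ → Prop) (h : ∀ t : ℤ, |t| ≤ N → P t → Q t) :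
    (Nat.card {t : ℤ // |t| ≤ N ∧ P t} : ℝ) ≤ Nat.card {t : ℤ // |t| ≤ N ∧ Q t} := by
  have h1 : Nat.card {t : ℤ // |t| ≤ N ∧ P t} = Set.ncard {t : ℤ | |t| ≤ N ∧ P t} :=
    Nat.card_coe_set_eq _
  have h2 : Nat.card {t : ℤ // |t| ≤ N ∧ Q t} = Set.ncard {t : ℤ | |t| ≤ N ∧ Q t} :=
    Nat.card_coe_set_eq _
  rw [h1, h2]
  have h4 : {t : ℤ | |t| ≤ N ∧ P t} ⊆ {t : ℤ | |t| ≤ N ∧ Q t} := by
    rintro t ⟨ht, hP⟩
    exact ⟨ht, h t ht hP⟩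
  exact_mod_cast Set.ncard_le_ncard h4 (fin_box N Q)

/-- the residues with a large value -/
private def EE (a0 b0 u v : ℤ) (K : ℕ) (p : ℕ) : Set (ZMod p) :=
  {t | ∃ h : Fact p.Prime, (K : ℤ) < |@S p h ((a0 : ZMod p) + t * (u : ZMod p),
    (b0 : ZMod p) + t * (v : ZMod p))|}

private theorem det_ne (a0 b0 u v : ℤ) (hD : a0 * v - b0 * u ≠ 0) (p : ℕ)
    (hp : (a0 * v - b0 * u).natAbs < p) :
    (a0 : ZMod p) * (v : ZMod p) - (b0 : ZMod p) * (u : ZMod p) ≠ 0 := by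
  intro h
  have h1 : ((a0 * v - b0 * u : ℤ) : ZMod p) = 0 := by
    push_cast
    exact h
  rw [ZMod.intCast_zmod_eq_zero_iff_dvd] at h1
  have h2 := Int.natAbs_dvd_natAbs.2 h1
  rw [Int.natAbs_natCast] at h2
  have h3 := Nat.le_of_dvd (Int.natAbs_pos.2 hD) h2
  omega

/-- One shell. PROOF. `sieve` with `P0` larger than `Nat.fib (4 (K0+4)^2 + 2)`, `|D|` and `10 ^ 4`
(`D = a0 v - b0 u ≠ 0`, so `p ∤ D`; `√p / 4 - 1 ≥ √p / 8`), `E p = {t | K0 + 4 < |S(v_t)|}` (`count_line`).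
For `t` with `t mod p ∈ E p`: `K0 < |k|` for `k = kval p (a0 + t u) (b0 + t v)` by `kval_S` and
`|k| ≤ pi0 p ≤ K1 := ∑_{p ∈ B} pi0 p + K0` by `kval_le`. (`(a0 + t u, b0 + t v) ≢ 0 mod p` since
`p ∤ D`.) -/
theorem shell (a0 b0 u v : ℤ) (hD : a0 * v - b0 * u ≠ 0) (K0 : ℕ) (δ : ℝ) (hδ : 0 < δ) :
    ∃ K1 N0 : ℕ, K0 ≤ K1 ∧ ∀ N ≥ N0,
      (Nat.card {t : ℤ // |t| ≤ N ∧
        ¬ ∃ k ∈ chi (a0 + t * u) (b0 + t * v), (K0 : ℤ) < |k| ∧ |k| ≤ K1} : ℝ) ≤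
        δ * (2 * N + 1) := by
  set P0 : ℕ := Nat.fib (4 * (K0 + 4) ^ 2 + 2) + (a0 * v - b0 * u).natAbs + 10 ^ 4 + 1 with hP0
  obtain ⟨B, N0, hB, hN⟩ := sieve P0 (EE a0 b0 u v (K0 + 4)) (by
    intro p hp hp40 hpP
    have : Fact p.Prime := ⟨hp⟩
    have hK : Nat.fib (4 * (K0 + 4) ^ 2 + 2) < p := by omega
    have hDp : (a0 * v - b0 * u).natAbs < p := by omega
    have hc := count_line hp40 (K0 + 4) hK ((a0 : ZMod p), (b0 : ZMod p))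
      ((u : ZMod p), (v : ZMod p)) (det_ne a0 b0 u v hD p hDp)
    have hcard : Nat.card (EE a0 b0 u v (K0 + 4) p) =
        Nat.card {t : ZMod p // ((K0 + 4 : ℕ) : ℤ) < |S ((a0 : ZMod p) + t * (u : ZMod p),
          (b0 : ZMod p) + t * (v : ZMod p))|} := by
      refine Nat.card_congr (Equiv.subtypeEquivRight fun t => ?_)
      constructor
      · rintro ⟨h, h'⟩
        exact h'
      · intro h
        exact ⟨this, h⟩
    rw [hcard]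
    set G := Nat.card {t : ZMod p // ((K0 + 4 : ℕ) : ℤ) < |S ((a0 : ZMod p) + t * (u : ZMod p),
          (b0 : ZMod p) + t * (v : ZMod p))|} with hG
    have hc' : (p : ℝ) ≤ (4 * ((G : ℝ) + 1)) ^ 2 := by
      have : (p : ℝ) ≤ 16 * ((G : ℝ) + 1) ^ 2 := by exact_mod_cast hc
      calc (p : ℝ) ≤ 16 * ((G : ℝ) + 1) ^ 2 := this
        _ = (4 * ((G : ℝ) + 1)) ^ 2 := by ring
    have h1 : Real.sqrt p ≤ 4 * ((G : ℝ) + 1) := Real.sqrt_le_iff.2 ⟨by positivity, hc'⟩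
    have h2 : (8 : ℝ) ≤ Real.sqrt p := by
      apply Real.le_sqrt_of_sq_le
      have : 10 ^ 4 ≤ p := by omega
      have : ((10 ^ 4 : ℕ) : ℝ) ≤ (p : ℝ) := by exact_mod_cast this
      norm_num at this ⊢
      linarith
    linarith) δ hδ
  refine ⟨K0 + ∑ p ∈ B, pi0 p, N0, Nat.le_add_right _ _, fun N hNN => ?_⟩
  refine (card_mono N _ (fun t => ∀ p ∈ B, (t : ZMod p) ∉ EE a0 b0 u v (K0 + 4) p) ?_).trans
    (hN N hNN)
  intro t _ ht p hpB hmem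
  obtain ⟨hprime, hp40, hpP⟩ := hB p hpB
  obtain ⟨hf, hS⟩ := hmem
  have := hf
  apply ht
  have hDp : (a0 * v - b0 * u).natAbs < p := by omega
  have hdet := det_ne a0 b0 u v hD p hDp
  have hcast : (((a0 + t * u : ℤ) : ZMod p), ((b0 + t * v : ℤ) : ZMod p)) =
      ((a0 : ZMod p) + (t : ZMod p) * (u : ZMod p), (b0 : ZMod p) + (t : ZMod p) * (v : ZMod p)) := by
    push_cast
    rfl
  have hne : (((a0 + t * u : ℤ) : ZMod p), ((b0 + t * v : ℤ) : ZMod p)) ≠ (0, 0) := by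
    rw [hcast]
    intro h
    apply hdet
    have e1 := congrArg Prod.fst h
    have e2 := congrArg Prod.snd h
    simp only at e1 e2
    linear_combination (v : ZMod p) * e1 - (u : ZMod p) * e2
  refine ⟨kval p (a0 + t * u) (b0 + t * v), ⟨p, hf, ?_, rfl⟩, ?_, ?_⟩
  · intro h2
    rw [h2] at hp40
    norm_num at hp40
  · have h1 := kval_S hp40 (a0 + t * u) (b0 + t * v) hne
    rw [hcast] at h1
    push_cast at hS
    linarith
  · refine (kval_le hp40 (a0 + t * u) (b0 + t * v) hne).trans ?_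
    have h1 : pi0 p ≤ ∑ p ∈ B, pi0 p := Finset.single_le_sum (f := fun p => pi0 p)
      (fun _ _ => Nat.zero_le _) hpB
    exact_mod_cast h1.trans (Nat.le_add_left _ _)

private theorem many_aux (a0 b0 u v : ℤ) (hD : a0 * v - b0 * u ≠ 0) (K : ℕ) :
    ∀ (δ : ℝ), 0 < δ → ∃ M N0 : ℕ, ∀ N ≥ N0,
      (Nat.card {t : ℤ // |t| ≤ N ∧
        ¬ (K : ℕ∞) ≤ (chi (a0 + t * u) (b0 + t * v) ∩ {k | |k| ≤ M}).encard} : ℝ) ≤
        δ * (2 * N + 1) := by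
  induction K with
  | zero =>
    intro δ hδ
    refine ⟨0, 0, fun N _ => ?_⟩
    have : IsEmpty {t : ℤ // |t| ≤ N ∧
        ¬ ((0 : ℕ) : ℕ∞) ≤ (chi (a0 + t * u) (b0 + t * v) ∩ {k | |k| ≤ ((0 : ℕ) : ℤ)}).encard} := by
      constructor
      rintro ⟨t, -, h⟩
      exact h (by simp)
    rw [Nat.card_of_isEmpty]
    push_cast
    positivity
  | succ K ih =>
    intro δ hδ
    obtain ⟨M, N1, h1⟩ := ih (δ / 2) (half_pos hδ)
    obtain ⟨K1, N2, hK1, h2⟩ := shell a0 b0 u v hD M (δ / 2) (half_pos hδ)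
    refine ⟨K1, max N1 N2, fun N hN => ?_⟩
    have e1 := h1 N (le_trans (le_max_left _ _) hN)
    have e2 := h2 N (le_trans (le_max_right _ _) hN)
    refine (card_or N _ _ _ ?_).trans ((add_le_add e1 e2).trans (le_of_eq (by ring)))
    intro t _ ht
    by_contra hcon
    push Not at hcon
    obtain ⟨hA, k, hk, hk1, hk2⟩ := hcon
    apply ht
    have hnot : k ∉ chi (a0 + t * u) (b0 + t * v) ∩ {k | |k| ≤ (M : ℤ)} := by
      rintro ⟨-, h⟩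
      exact absurd hk1 (not_lt.2 h)
    have hsub : insert k (chi (a0 + t * u) (b0 + t * v) ∩ {k | |k| ≤ (M : ℤ)}) ⊆
        chi (a0 + t * u) (b0 + t * v) ∩ {k | |k| ≤ (K1 : ℤ)} := by
      rintro x (rfl | ⟨hx1, hx2⟩)
      · exact ⟨hk, hk2⟩
      · refine ⟨hx1, ?_⟩
        have : (M : ℤ) ≤ K1 := by exact_mod_cast hK1
        exact le_trans hx2 this
    calc ((K + 1 : ℕ) : ℕ∞) = (K : ℕ∞) + 1 := by push_cast; rfl
      _ ≤ (chi (a0 + t * u) (b0 + t * v) ∩ {k | |k| ≤ (M : ℤ)}).encard + 1 := by gcongr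
      _ = (insert k (chi (a0 + t * u) (b0 + t * v) ∩ {k | |k| ≤ (M : ℤ)})).encard :=
        (Set.encard_insert_of_notMem hnot).symm
      _ ≤ _ := Set.encard_le_encard hsub

/-- PROOF. Induction on `K`: the statement `∃ M N0, ∀ N ≥ N0`, all but `δ (2 N + 1)` of the
`t`, `|t| ≤ N`, have at least `K` elements `k` of `χ` with `|k| ≤ M`; the step uses `shell` with `K0 = M`. -/
theorem many (a0 b0 u v : ℤ) (hD : a0 * v - b0 * u ≠ 0) (K : ℕ) (δ : ℝ) (hδ : 0 < δ) :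
    ∃ N0 : ℕ, ∀ N ≥ N0,
      (Nat.card {t : ℤ // |t| ≤ N ∧ (chi (a0 + t * u) (b0 + t * v)).encard ≤ K} : ℝ) ≤
        δ * (2 * N + 1) := by
  obtain ⟨M, N0, h⟩ := many_aux a0 b0 u v hD (K + 1) δ hδ
  refine ⟨N0, fun N hN => (card_mono N _ _ ?_).trans (h N hN)⟩
  intro t _ ht hcon
  have h1 : ((K + 1 : ℕ) : ℕ∞) ≤ (K : ℕ∞) :=
    hcon.trans ((Set.encard_le_encard Set.inter_subset_left).trans ht)
  have h2 : K + 1 ≤ K := by exact_mod_cast h1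
  omega

end PL
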